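import Mathlib
import Pool.Agent.Helper730.Kneser

set_option autoImplicit false
set_option linter.unusedSectionVars false

open scoped Pointwise
open Finset

namespace Pool.Agent.R364.Noisy

open Pool.Agent.Helper730.Kneser

section General

variable {G : Type*} [AddCommGroup G] [Fintype G] [DecidableEq G]

/-- `X + B + ... + B` with `m` copies of `B` -/
def it (X B : Finset G) : ℕ → Finset G
  | 0 => X
  | m + 1 => it X B m + B

theorem it_nonempty {X B : Finset G} (hX : X.Nonempty) (hB : B.Nonempty) (m : ℕ) :
    (it X B m).Nonempty := by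
  induction m with
  | zero => exact hX
  | succ m ih => exact ih.add hB

theorem add_zero_set (X : Finset G) : X + {0} = X := by
  ext z
  rw [Finset.mem_add]
  constructor
  · rintro ⟨x, hx, y, hy, rfl⟩
    rw [Finset.mem_singleton.1 hy, add_zero]
    exact hx
  · intro h
    exact ⟨z, h, 0, Finset.mem_singleton_self 0, add_zero z⟩

theorem it_add (X B : Finset G) (j i : ℕ) : it X B (j + i) = it X B j + it {0} B i := by
  induction i with
  | zero =>
    show it X B j = it X B j + {0}
    rw [add_zero_set]
  | succ i ih =>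
    show it X B (j + i) + B = it X B j + (it {0} B i + B)
    rw [ih, add_assoc]

theorem fs_fs (H : AddSubgroup G) : fs H + fs H = fs H := by
  ext z
  rw [Finset.mem_add, mem_fs]
  constructor
  · rintro ⟨x, hx, y, hy, rfl⟩
    exact H.add_mem (mem_fs.1 hx) (mem_fs.1 hy)
  · intro hz
    exact ⟨z, mem_fs.2 hz, 0, mem_fs.2 H.zero_mem, add_zero z⟩

theorem stab_le_add (X Y : Finset G) : stab X ≤ stab (X + Y) := by
  intro g hg
  apply mem_stab_of_forall
  intro z hz
  obtain ⟨x, hx, y, hy, rfl⟩ := Finset.mem_add.1 hz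
  have h1 : x + y + g = (x + g) + y := by abel
  rw [h1]
  exact Finset.add_mem_add (stab_add hg hx) hy

theorem le_stab_add (X : Finset G) (H : AddSubgroup G) : H ≤ stab (X + fs H) := by
  intro g hg
  apply mem_stab_of_forall
  intro z hz
  obtain ⟨x, hx, y, hy, rfl⟩ := Finset.mem_add.1 hz
  rw [add_assoc]
  exact Finset.add_mem_add hx (mem_fs.2 (H.add_mem (mem_fs.1 hy) hg))

theorem kneser_iter (X B : Finset G) (hX : X.Nonempty) (hB : B.Nonempty) (m : ℕ)
    (H : AddSubgroup G) (hH : H = stab (it X B m)) :
    (X + fs H).card + m * (B + fs H).card ≤ (it X B m).card + m * (fs H).card := by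
  have key : ∀ j i : ℕ, j + i = m →
      (X + fs H).card + j * (B + fs H).card ≤ (it X B j + fs H).card + j * (fs H).card := by
    intro j
    induction j with
    | zero => intro i _; simp [it]
    | succ j ih =>
      intro i hi
      have h0 := ih (i + 1) (by omega)
      have e1 : it X B (j + 1) + fs H = (it X B j + fs H) + (B + fs H) := by
        show it X B j + B + fs H = _
        rw [add_add_add_comm, fs_fs]
      have hst : stab (it X B (j + 1) + fs H) = H := by
        apply le_antisymm
        · have h2 := stab_le_add (it X B (j + 1) + fs H) (it {0} B i)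
          have h3 : it X B (j + 1) + fs H + it {0} B i = it X B m := by
            rw [add_right_comm, ← it_add, hi]
            exact add_fs_stab _ _ (le_of_eq hH)
          rw [h3] at h2
          exact h2.trans (le_of_eq hH.symm)
        · exact le_stab_add _ H
      have h4 := kneser' (it X B j + fs H) (B + fs H)
        ((it_nonempty hX hB j).add (fs_nonempty H)) (hB.add (fs_nonempty H))
      rw [← e1, hst, add_assoc, fs_fs, add_assoc, fs_fs] at h4
      have e2 : (j + 1) * (B + fs H).card = j * (B + fs H).card + (B + fs H).card := by ring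
      have e3 : (j + 1) * (fs H).card = j * (fs H).card + (fs H).card := by ring
      rw [e2, e3]
      omega
  have h := key m 0 (by omega)
  have h5 : it X B m + fs H = it X B m := add_fs_stab _ _ (le_of_eq hH)
  rw [h5] at h
  exact h

theorem card_ge_of_periodic {X : Finset G} {H : AddSubgroup G} (hX : X.Nonempty)
    (hp : X + fs H = X) : (fs H).card ≤ X.card := by
  obtain ⟨x, hx⟩ := hX
  have h : (fs H).image (fun t => x + t) ⊆ X := by
    intro z hz
    obtain ⟨t, ht, rfl⟩ := Finset.mem_image.1 hz
    rw [← hp]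
    exact Finset.add_mem_add hx ht
  calc (fs H).card = ((fs H).image (fun t => x + t)).card :=
        (Finset.card_image_of_injective _ (add_right_injective x)).symm
    _ ≤ X.card := Finset.card_le_card h

theorem card_ge_two {X : Finset G} {H : AddSubgroup G} (hp : X + fs H = X)
    {e e' : G} (he : e ∈ X) (he' : e' ∈ X) (hne : e' - e ∉ H) :
    2 * (fs H).card ≤ X.card := by
  have h1 : (fs H).image (fun t => e + t) ⊆ X := by
    intro z hz
    obtain ⟨t, ht, rfl⟩ := Finset.mem_image.1 hz
    rw [← hp]
    exact Finset.add_mem_add he ht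
  have h2 : (fs H).image (fun t => e' + t) ⊆ X := by
    intro z hz
    obtain ⟨t, ht, rfl⟩ := Finset.mem_image.1 hz
    rw [← hp]
    exact Finset.add_mem_add he' ht
  have hd : Disjoint ((fs H).image (fun t => e + t)) ((fs H).image (fun t => e' + t)) := by
    rw [Finset.disjoint_left]
    intro z hz hz'
    obtain ⟨t, ht, rfl⟩ := Finset.mem_image.1 hz
    obtain ⟨t', ht', h⟩ := Finset.mem_image.1 hz'
    apply hne
    have : e' - e = t - t' := by
      have h' : e' + t' = e + t := h
      calc e' - e = (e' + t') - e - t' := by abel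
        _ = (e + t) - e - t' := by rw [h']
        _ = t - t' := by abel
    rw [this]
    exact H.sub_mem (mem_fs.1 ht) (mem_fs.1 ht')
  have h3 := Finset.card_le_card (Finset.union_subset h1 h2)
  rw [Finset.card_union_of_disjoint hd,
    Finset.card_image_of_injective _ (add_right_injective e),
    Finset.card_image_of_injective _ (add_right_injective e')] at h3
  omega

theorem mem_periodic {X : Finset G} {H : AddSubgroup G} (hp : X + fs H = X) {x t : G}
    (hx : x ∈ X) (ht : t ∈ H) : x + t ∈ X := by
  rw [← hp]; exact Finset.add_mem_add hx (mem_fs.2 ht)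

theorem mem_periodic_iff {X : Finset G} {H : AddSubgroup G} (hp : X + fs H = X) {x t : G}
    (ht : t ∈ H) : x + t ∈ X ↔ x ∈ X := by
  constructor
  · intro h
    have := mem_periodic hp h (H.neg_mem ht)
    rwa [add_neg_cancel_right] at this
  · intro h; exact mem_periodic hp h ht

theorem periodic_of_forall {X : Finset G} {H : AddSubgroup G}
    (h : ∀ x ∈ X, ∀ t ∈ H, x + t ∈ X) : X + fs H = X := by
  apply Finset.Subset.antisymm
  · intro z hz
    obtain ⟨x, hx, t, ht, rfl⟩ := Finset.mem_add.1 hz
    exact h x hx t (mem_fs.1 ht)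
  · intro z hz
    have := Finset.add_mem_add hz (mem_fs.2 H.zero_mem)
    rwa [add_zero] at this

end General

section Cyc

variable {n : ℕ} [NeZero n]

/-- the interval `{0, 1, ..., c - 1}` read modulo `n` -/
def itv (n c : ℕ) : Finset (ZMod n) := (Finset.range c).image (fun i : ℕ => (i : ZMod n))

theorem itv_nonempty (n c : ℕ) (hc : 1 ≤ c) : (itv n c).Nonempty :=
  ⟨0, by rw [itv, Finset.mem_image]; exact ⟨0, Finset.mem_range.2 (by omega), by simp⟩⟩

theorem mem_itv {c : ℕ} {z : ZMod n} : z ∈ itv n c ↔ ∃ i : ℕ, i < c ∧ (i : ZMod n) = z := by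
  simp [itv]

theorem itv_one : itv n 1 = {0} := by
  ext z; rw [mem_itv, Finset.mem_singleton]
  constructor
  · rintro ⟨i, hi, rfl⟩
    have : i = 0 := by omega
    simp [this]
  · rintro rfl; exact ⟨0, by omega, by simp⟩

theorem itv_succ (c : ℕ) (hc : 1 ≤ c) : itv n (c + 1) = itv n c + itv n 2 := by
  ext z
  rw [mem_itv, Finset.mem_add]
  constructor
  · rintro ⟨i, hi, rfl⟩
    rcases Nat.lt_or_ge i c with h | h
    · exact ⟨(i : ZMod n), mem_itv.2 ⟨i, h, rfl⟩, 0, mem_itv.2 ⟨0, by omega, by simp⟩, by simp⟩
    · refine ⟨((c - 1 : ℕ) : ZMod n), mem_itv.2 ⟨c - 1, by omega, rfl⟩, 1,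
        mem_itv.2 ⟨1, by omega, by simp⟩, ?_⟩
      have : i = (c - 1) + 1 := by omega
      rw [this]; push_cast; ring
  · rintro ⟨x, hx, y, hy, rfl⟩
    obtain ⟨i, hi, rfl⟩ := mem_itv.1 hx
    obtain ⟨j, hj, rfl⟩ := mem_itv.1 hy
    exact ⟨i + j, by omega, by push_cast; ring⟩

/-- right end points -/
def ex (X : Finset (ZMod n)) : Finset (ZMod n) := X.filter (fun x => x + 1 ∉ X)

theorem mem_ex {X : Finset (ZMod n)} {x : ZMod n} : x ∈ ex X ↔ x ∈ X ∧ x + 1 ∉ X := by
  simp [ex]

theorem card_add_two (X : Finset (ZMod n)) : (X + itv n 2).card = X.card + (ex X).card := by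
  have h : X + itv n 2 = X ∪ (ex X).image (fun x => x + 1) := by
    ext z
    rw [Finset.mem_add, Finset.mem_union, Finset.mem_image]
    constructor
    · rintro ⟨x, hx, y, hy, rfl⟩
      obtain ⟨i, hi, rfl⟩ := mem_itv.1 hy
      have : i = 0 ∨ i = 1 := by omega
      rcases this with rfl | rfl
      · left; simpa using hx
      · by_cases h1 : x + 1 ∈ X
        · left; simpa using h1
        · right; exact ⟨x, mem_ex.2 ⟨hx, h1⟩, by simp⟩
    · rintro (h | ⟨x, hx, rfl⟩)
      · exact ⟨z, h, 0, mem_itv.2 ⟨0, by omega, by simp⟩, by simp⟩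
      · exact ⟨x, (mem_ex.1 hx).1, 1, mem_itv.2 ⟨1, by omega, by simp⟩, rfl⟩
  rw [h, Finset.card_union_of_disjoint, Finset.card_image_of_injective _ (add_left_injective 1)]
  rw [Finset.disjoint_left]
  intro z hz hz'
  obtain ⟨x, hx, rfl⟩ := Finset.mem_image.1 hz'
  exact (mem_ex.1 hx).2 hz

theorem ex_nonempty {X : Finset (ZMod n)} (hX : X.Nonempty) (hu : X ≠ Finset.univ) :
    (ex X).Nonempty := by
  by_contra hne
  rw [Finset.not_nonempty_iff_eq_empty] at hne
  obtain ⟨x, hx⟩ := hX
  have hs : ∀ y ∈ X, y + 1 ∈ X := by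
    intro y hy
    by_contra h
    have : y ∈ ex X := mem_ex.2 ⟨hy, h⟩
    rw [hne] at this
    simp at this
  have hall : ∀ j : ℕ, x + (j : ZMod n) ∈ X := by
    intro j
    induction j with
    | zero => simpa using hx
    | succ j ih =>
      have := hs _ ih
      push_cast
      rwa [← add_assoc]
  apply hu
  rw [Finset.eq_univ_iff_forall]
  intro z
  have := hall (z - x).val
  rw [ZMod.natCast_val, ZMod.cast_id] at this
  simpa using this

theorem ex_periodic {X : Finset (ZMod n)} {H : AddSubgroup (ZMod n)} (hp : X + fs H = X) :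
    ex X + fs H = ex X := by
  apply periodic_of_forall
  intro x hx t ht
  rw [mem_ex] at hx ⊢
  refine ⟨mem_periodic hp hx.1 ht, ?_⟩
  have e : x + t + 1 = (x + 1) + t := by ring
  rw [e, mem_periodic_iff hp ht]
  exact hx.2

theorem add_periodic {X : Finset (ZMod n)} {H : AddSubgroup (ZMod n)} (hp : X + fs H = X)
    (Y : Finset (ZMod n)) : X + Y + fs H = X + Y := by
  rw [add_right_comm, hp]

theorem grow {H : AddSubgroup (ZMod n)} (c : ℕ) : ∀ {X : Finset (ZMod n)}, X.Nonempty →
    X + fs H = X → X + itv n (c + 1) ≠ Finset.univ →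
    X.card + c * (fs H).card ≤ (X + itv n (c + 1)).card := by
  induction c with
  | zero =>
    intro X hX hp hu
    rw [zero_add, itv_one, Nat.zero_mul, add_zero, add_zero_set]
  | succ c ih =>
    intro X hX hp hu
    rw [itv_succ (c + 1) (by omega), ← add_assoc] at hu ⊢
    have hY : (X + itv n (c + 1)).Nonempty := hX.add (itv_nonempty n (c + 1) (by omega))
    have hYp : X + itv n (c + 1) + fs H = X + itv n (c + 1) := add_periodic hp _
    have hYu : X + itv n (c + 1) ≠ Finset.univ := by
      intro h
      apply hu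
      rw [h]
      rw [Finset.eq_univ_iff_forall]
      intro z
      rw [Finset.mem_add]
      exact ⟨z, Finset.mem_univ z, 0, mem_itv.2 ⟨0, by omega, by simp⟩, by simp⟩
    have h1 := ih hX hp hYu
    have h2 := card_add_two (X + itv n (c + 1))
    have h3 := card_ge_of_periodic (ex_nonempty hY hYu) (ex_periodic hYp)
    rw [h2]
    have e : (c + 1) * (fs H).card = c * (fs H).card + (fs H).card := by ring
    omega

/-- if the right end points do not form a single coset, adding an interval gains more -/
theorem grow' {H : AddSubgroup (ZMod n)} (c : ℕ) {X : Finset (ZMod n)} (hX : X.Nonempty)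
    (hp : X + fs H = X) (hu : X + itv n (c + 2) ≠ Finset.univ)
    {e e' : ZMod n} (he : e ∈ ex X) (he' : e' ∈ ex X) (hne : e' - e ∉ H) :
    X.card + (c + 2) * (fs H).card ≤ (X + itv n (c + 2)).card := by
  have h1 : itv n (c + 2) = itv n 2 + itv n (c + 1) := by
    rw [itv_succ (c + 1) (by omega), add_comm]
  rw [h1, ← add_assoc] at hu ⊢
  have h2 := grow (H := H) c (hX.add (itv_nonempty n 2 (by omega))) (add_periodic hp _) hu
  have h3 := card_add_two X
  have h4 := card_ge_two (ex_periodic hp) he he' hne
  have e : (c + 2) * (fs H).card = c * (fs H).card + 2 * (fs H).card := by ring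
  omega

end Cyc

end Pool.Agent.R364.Noisy
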