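import Mathlib
import Pool.Agent.R364.NoisyA

set_option autoImplicit false
set_option linter.unusedSectionVars false

open scoped Pointwise
open Finset

namespace Pool.Agent.R364.Noisy

open Pool.Agent.Helper730.Kneser

variable {n : ℕ} [NeZero n]

theorem univ_of_add_univ {X Y : Finset (ZMod n)} (hX : X.Nonempty) (hY : Y = Finset.univ) :
    X + Y = Finset.univ := by
  obtain ⟨x, hx⟩ := hX
  rw [Finset.eq_univ_iff_forall]
  intro z
  rw [Finset.mem_add]
  exact ⟨x, hx, z - x, by rw [hY]; exact Finset.mem_univ _, by ring⟩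

theorem BH_ne_univ {A B : Finset (ZMod n)} (hA : A.Nonempty) (hB : B.Nonempty) (m : ℕ)
    (hm : 1 ≤ m) (hu : it A B m ≠ Finset.univ) (H : AddSubgroup (ZMod n))
    (hH : H = stab (it A B m)) : B + fs H ≠ Finset.univ := by
  intro h
  apply hu
  obtain ⟨m', rfl⟩ : ∃ m', m = m' + 1 := ⟨m - 1, by omega⟩
  have h1 : it A B (m' + 1) + fs H = it A B (m' + 1) := add_fs_stab _ _ (le_of_eq hH)
  rw [← h1]
  show it A B m' + B + fs H = _
  rw [add_assoc]
  exact univ_of_add_univ (it_nonempty hA hB m') h

theorem low (A : Finset (ZMod n)) (hA : A.Nonempty) (c' m : ℕ)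
    (hu : it A (A + itv n (c' + 2)) m ≠ Finset.univ) (H : AddSubgroup (ZMod n))
    (hH : H = stab (it A (A + itv n (c' + 2)) m)) :
    (m + 1) * (A + fs H).card + m * c' * (fs H).card ≤
      (it A (A + itv n (c' + 2)) m).card := by
  have hC : (itv n (c' + 2)).Nonempty := itv_nonempty n _ (by omega)
  have hB : (A + itv n (c' + 2)).Nonempty := hA.add hC
  have h1 := kneser_iter A (A + itv n (c' + 2)) hA hB m H hH
  rcases Nat.eq_zero_or_pos m with h0 | hpos
  · subst h0
    simpa using h1
  · have h2 := BH_ne_univ hA hB m hpos hu H hH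
    have e : A + itv n (c' + 2) + fs H = (A + fs H) + itv n ((c' + 1) + 1) := by
      rw [add_right_comm]
    rw [e] at h1 h2
    have hp : A + fs H + fs H = A + fs H := by rw [add_assoc, fs_fs]
    have h3 := grow (c' + 1) (hA.add (fs_nonempty H)) hp h2
    have h4 : m * ((A + fs H).card + (c' + 1) * (fs H).card) ≤
        m * (A + fs H + itv n (c' + 1 + 1)).card := Nat.mul_le_mul_left m h3
    nlinarith [h1, h4]

/-- If the right end points of `A` form a single coset of `H`, then `A` is an interval
modulo `H`. -/
theorem structure_mod {A : Finset (ZMod n)} {H : AddSubgroup (ZMod n)} (hp : A + fs H = A)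
    {e : ZMod n} (he : e ∈ ex A) (hall : ∀ e' ∈ ex A, e' - e ∈ H) :
    ∃ b : ℕ, A.card = (b + 1) * (fs H).card ∧ ∀ j : ℕ, j ≤ b → e - (j : ZMod n) ∈ A := by
  classical
  have heA := (mem_ex.1 he).1
  have he1 := (mem_ex.1 he).2
  have hex : ∃ j : ℕ, e - (j : ZMod n) ∉ A := by
    refine ⟨n - 1, ?_⟩
    have hn : 1 ≤ n := Nat.one_le_iff_ne_zero.2 (NeZero.ne n)
    have : e - ((n - 1 : ℕ) : ZMod n) = e + 1 := by
      rw [Nat.cast_sub hn]
      simp
    rw [this]
    exact he1
  set a := Nat.find hex with ha
  have ha1 : e - (a : ZMod n) ∉ A := Nat.find_spec hex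
  have ha2 : ∀ j : ℕ, j < a → e - (j : ZMod n) ∈ A := by
    intro j hj
    have := Nat.find_min hex hj
    exact not_not.1 this
  have hapos : 1 ≤ a := by
    by_contra h
    have h0 : a = 0 := by omega
    rw [h0] at ha1
    simp at ha1
    exact ha1 heA
  refine ⟨a - 1, ?_, fun j hj => ha2 j (by omega)⟩
  have hab : a - 1 + 1 = a := by omega
  rw [hab]
  have himg : ((Finset.range a) ×ˢ (fs H)).image
      (fun p : ℕ × ZMod n => e - (p.1 : ZMod n) + p.2) = A := by
    ext z
    rw [Finset.mem_image]
    constructor
    · rintro ⟨⟨j, t⟩, hjt, rfl⟩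
      rw [Finset.mem_product] at hjt
      exact mem_periodic hp (ha2 j (Finset.mem_range.1 hjt.1)) (mem_fs.1 hjt.2)
    · intro hz
      have hexz : ∃ j : ℕ, z + ((j + 1 : ℕ) : ZMod n) ∉ A := by
        refine ⟨(e - z).val, ?_⟩
        have : z + (((e - z).val + 1 : ℕ) : ZMod n) = e + 1 := by
          push_cast
          rw [ZMod.natCast_val, ZMod.cast_id]
          ring
        rw [this]
        exact he1
      set j := Nat.find hexz with hj
      have hj1 : z + ((j + 1 : ℕ) : ZMod n) ∉ A := Nat.find_spec hexz
      have hj2 : ∀ i : ℕ, i ≤ j → z + (i : ZMod n) ∈ A := by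
        intro i hi
        rcases Nat.eq_zero_or_pos i with h0 | hpos
        · rw [h0]; simpa using hz
        · have := Nat.find_min hexz (m := i - 1) (by omega)
          have e1 : i - 1 + 1 = i := by omega
          rw [e1] at this
          exact not_not.1 this
      have hE : z + (j : ZMod n) ∈ ex A := by
        rw [mem_ex]
        refine ⟨hj2 j le_rfl, ?_⟩
        have e1 : z + (j : ZMod n) + 1 = z + ((j + 1 : ℕ) : ZMod n) := by push_cast; ring
        rw [e1]
        exact hj1
      have ht := hall _ hE
      refine ⟨(j, z + (j : ZMod n) - e), ?_, by ring⟩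
      rw [Finset.mem_product]
      refine ⟨?_, mem_fs.2 ht⟩
      rw [Finset.mem_range]
      by_contra hge
      apply ha1
      have h5 := hj2 (j - a) (by omega)
      have h6 := mem_periodic hp h5 (H.neg_mem ht)
      have e2 : z + ((j - a : ℕ) : ZMod n) + -(z + (j : ZMod n) - e) = e - (a : ZMod n) := by
        rw [Nat.cast_sub (by omega)]
        ring
      rw [e2] at h6
      exact h6
  have hinj : Set.InjOn (fun p : ℕ × ZMod n => e - (p.1 : ZMod n) + p.2)
      ((Finset.range a) ×ˢ (fs H) : Finset (ℕ × ZMod n)) := by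
    have aux : ∀ i j : ℕ, i < j → j < a → ∀ t ∈ H, ∀ t' ∈ H,
        e - (i : ZMod n) + t ≠ e - (j : ZMod n) + t' := by
      intro i j hij hja t ht t' ht' heq
      apply he1
      have h5 := ha2 (j - i - 1) (by omega)
      have h6 := mem_periodic hp h5 (H.sub_mem ht' ht)
      have e2 : e - ((j - i - 1 : ℕ) : ZMod n) + (t' - t) = e + 1 := by
        rw [Nat.cast_sub (by omega), Nat.cast_sub (by omega)]
        have h7 : t' - t = (j : ZMod n) - (i : ZMod n) := by
          linear_combination -heq
        rw [h7]
        push_cast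
        ring
      rw [e2] at h6
      exact h6
    rintro ⟨i, t⟩ h1 ⟨j, t'⟩ h2 heq
    rw [Finset.mem_coe, Finset.mem_product] at h1 h2
    have hi := Finset.mem_range.1 h1.1
    have hj := Finset.mem_range.1 h2.1
    have ht := mem_fs.1 h1.2
    have ht' := mem_fs.1 h2.2
    simp only at hi hj ht ht' heq
    rcases lt_trichotomy i j with h | h | h
    · exact absurd heq (aux i j h hj t ht t' ht')
    · subst h
      have : t = t' := by linear_combination heq
      rw [this]
    · exact absurd heq.symm (aux j i h hi t' ht' t ht)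
  have hc := Finset.card_image_of_injOn hinj
  rw [himg, Finset.card_product, Finset.card_range] at hc
  exact hc

theorem positions {A : Finset (ZMod n)} {x0 : ZMod n} {b c' : ℕ}
    (h : ∀ i : ℕ, i ≤ b → x0 + (i : ZMod n) ∈ A) (m : ℕ) :
    ∀ i : ℕ, i ≤ b + m * (b + c' + 1) →
      ((m : ZMod n) + 1) * x0 + (i : ZMod n) ∈ it A (A + itv n (c' + 2)) m := by
  induction m with
  | zero =>
    intro i hi
    have h1 := h i (by omega)
    show _ ∈ A
    have e : (((0 : ℕ) : ZMod n) + 1) * x0 + (i : ZMod n) = x0 + (i : ZMod n) := by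
      rw [Nat.cast_zero]; ring
    rw [e]
    exact h1
  | succ m ih =>
    intro i hi
    have hsplit : ∃ i1 i2 i3 : ℕ, i1 ≤ b + m * (b + c' + 1) ∧ i2 ≤ b ∧ i3 < c' + 2 ∧
        i = i1 + i2 + i3 := by
      have e : b + (m + 1) * (b + c' + 1) = b + m * (b + c' + 1) + b + (c' + 1) := by ring
      rw [e] at hi
      rcases Nat.le_total i (b + m * (b + c' + 1)) with h1 | h1
      · exact ⟨i, 0, 0, h1, by omega, by omega, by omega⟩
      · rcases Nat.le_total i (b + m * (b + c' + 1) + b) with h2 | h2
        · exact ⟨b + m * (b + c' + 1), i - (b + m * (b + c' + 1)), 0, le_rfl, by omega,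
            by omega, by omega⟩
        · exact ⟨b + m * (b + c' + 1), b, i - (b + m * (b + c' + 1) + b), le_rfl, le_rfl,
            by omega, by omega⟩
    obtain ⟨i1, i2, i3, h1, h2, h3, rfl⟩ := hsplit
    have m1 := ih i1 h1
    have m2 := h i2 h2
    have m3 : ((i3 : ℕ) : ZMod n) ∈ itv n (c' + 2) := mem_itv.2 ⟨i3, h3, rfl⟩
    have m4 := Finset.add_mem_add m1 (Finset.add_mem_add m2 m3)
    show _ ∈ it A (A + itv n (c' + 2)) m + (A + itv n (c' + 2))
    have e : (((m + 1 : ℕ) : ZMod n) + 1) * x0 + ((i1 + i2 + i3 : ℕ) : ZMod n) =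
        ((m : ZMod n) + 1) * x0 + (i1 : ZMod n) + (x0 + (i2 : ZMod n) + (i3 : ZMod n)) := by
      push_cast
      ring
    rw [e]
    exact m4

theorem it_periodic {A B : Finset (ZMod n)} {H : AddSubgroup (ZMod n)} (hp : A + fs H = A)
    (m : ℕ) : it A B m + fs H = it A B m := by
  induction m with
  | zero => exact hp
  | succ m ih =>
    show it A B m + B + fs H = it A B m + B
    rw [add_right_comm, ih]

theorem fs_card (H : AddSubgroup (ZMod n)) : H.index * (fs H).card = n := by
  have h1 := H.index_mul_card
  have h2 : Nat.card H = (fs H).card := by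
    have : (fs H).card = Nat.card (fs H) := by simp
    rw [this]
    apply Nat.card_congr
    exact Equiv.subtypeEquivRight (fun x => mem_fs.symm)
  rw [h2] at h1
  simpa using h1

theorem upper (A : Finset (ZMod n)) (hA : A.Nonempty) (c' m q : ℕ) (hq : q < m)
    (hd : Disjoint (it A (A + itv n (c' + 2)) m) (it A (A + itv n (c' + 2)) q)) :
    ∃ y : ℕ, Nat.gcd n (m - q) ∣ y ∧ (q + 1) * A.card + q * c' ≤ y ∧
      y + ((m + 1) * A.card + m * c') ≤ n := by
  set B := A + itv n (c' + 2) with hBdef
  have hC : (itv n (c' + 2)).Nonempty := itv_nonempty n _ (by omega)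
  have hB : B.Nonempty := hA.add hC
  have hSk : (it A B m).Nonempty := it_nonempty hA hB m
  have hSl : (it A B q).Nonempty := it_nonempty hA hB q
  have huk : it A B m ≠ Finset.univ := by
    intro h
    rw [h] at hd
    obtain ⟨z, hz⟩ := hSl
    exact Finset.disjoint_left.1 hd (Finset.mem_univ z) hz
  have hul : it A B q ≠ Finset.univ := by
    intro h
    rw [h] at hd
    obtain ⟨z, hz⟩ := hSk
    exact Finset.disjoint_left.1 hd hz (Finset.mem_univ z)
  have hsum : (it A B m).card + (it A B q).card ≤ n := by
    rw [← Finset.card_union_of_disjoint hd]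
    have := Finset.card_le_univ (it A B m ∪ it A B q)
    rwa [ZMod.card] at this
  have hSlcard : (q + 1) * A.card + q * c' ≤ (it A B q).card := by
    have h1 := low A hA c' q hul _ rfl
    have h2 : A.card ≤ (A + fs (stab (it A B q))).card := by
      apply Finset.card_le_card
      intro z hz
      have := Finset.add_mem_add hz (mem_fs.2 (stab (it A B q)).zero_mem)
      rwa [add_zero] at this
    have h3 := fs_card_pos (stab (it A B q))
    have h4 : (q + 1) * A.card ≤ (q + 1) * (A + fs (stab (it A B q))).card :=
      Nat.mul_le_mul_left _ h2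
    have h5 : q * c' * 1 ≤ q * c' * (fs (stab (it A B q))).card :=
      Nat.mul_le_mul_left _ h3
    rw [mul_one] at h5
    exact le_trans (Nat.add_le_add h4 h5) h1
  set H := stab (it A B m) with hH
  have hhpos : 1 ≤ (fs H).card := fs_card_pos H
  have hSkcard := low A hA c' m huk H hH
  have hAH : A ⊆ A + fs H := by
    intro z hz
    have := Finset.add_mem_add hz (mem_fs.2 H.zero_mem)
    rwa [add_zero] at this
  have hAHc : A.card ≤ (A + fs H).card := Finset.card_le_card hAH
  have hmc : m * c' * 1 ≤ m * c' * (fs H).card := Nat.mul_le_mul_left _ hhpos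
  rw [mul_one] at hmc
  have hδpos : 0 < Nat.gcd n (m - q) := Nat.gcd_pos_of_pos_right _ (by omega)
  have hδle : Nat.gcd n (m - q) ≤ m - q := Nat.gcd_le_right _ (by omega)
  by_cases hs : (m + 1) * A.card + m * c' + ((q + 1) * A.card + q * c') + (m - q - 1) ≤ n
  · -- enough room
    set δ := Nat.gcd n (m - q) with hδ
    set hi := n - ((m + 1) * A.card + m * c') with hhi
    refine ⟨hi - hi % δ, Nat.dvd_sub_mod hi, ?_, ?_⟩
    · have := Nat.mod_lt hi hδpos
      omega
    · have := Nat.mod_le hi δ
      omega
  · -- little room: structure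
    have hper : A + fs H = A := by
      by_contra hne
      have hlt : A.card < (A + fs H).card := by
        apply Finset.card_lt_card
        exact lt_of_le_of_ne hAH (fun h => hne h.symm)
      have h4 : (m + 1) * (A.card + 1) ≤ (m + 1) * (A + fs H).card :=
        Nat.mul_le_mul_left _ hlt
      have h5 : (m + 1) * (A.card + 1) = (m + 1) * A.card + (m + 1) := by ring
      change (m + 1) * (A + fs H).card + m * c' * (fs H).card ≤ (it A B m).card at hSkcard
      omega
    have hAu : A ≠ Finset.univ := by
      intro h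
      apply hul
      have : ∀ j : ℕ, it A B j = Finset.univ := by
        intro j
        induction j with
        | zero => exact h
        | succ j ih =>
          show it A B j + B = _
          rw [add_comm]
          exact univ_of_add_univ hB ih
      exact this q
    obtain ⟨e, he⟩ := ex_nonempty hA hAu
    have hall : ∀ e' ∈ ex A, e' - e ∈ H := by
      by_contra hcon
      push Not at hcon
      obtain ⟨e', he', hne⟩ := hcon
      have hBu : A + itv n (c' + 2) ≠ Finset.univ := by
        intro h
        have h2 := BH_ne_univ hA hB m (by omega) huk H hH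
        apply h2
        rw [hBdef, h, add_comm]
        exact univ_of_add_univ (fs_nonempty H) rfl
      have h1 := grow' c' hA hper hBu he he' hne
      have h2 := kneser_iter A B hA hB m H hH
      have hBH : B ⊆ B + fs H := by
        intro z hz
        have := Finset.add_mem_add hz (mem_fs.2 H.zero_mem)
        rwa [add_zero] at this
      have hBHc : B.card ≤ (B + fs H).card := Finset.card_le_card hBH
      rw [hper] at h2
      have h3 : m * (A.card + (c' + 2) * (fs H).card) ≤ m * (B + fs H).card :=
        Nat.mul_le_mul_left _ (le_trans h1 hBHc)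
      have h4 : m * (A.card + (c' + 2) * (fs H).card) =
          m * A.card + m * c' * (fs H).card + m * (fs H).card + m * (fs H).card := by ring
      have h5 : (m + 1) * A.card = m * A.card + A.card := by ring
      have h6 : m * 1 ≤ m * (fs H).card := Nat.mul_le_mul_left _ hhpos
      rw [mul_one] at h6
      omega
    obtain ⟨b, hb1, hb2⟩ := structure_mod hper he hall
    set x0 : ZMod n := e - (b : ZMod n) with hx0
    have hpos : ∀ i : ℕ, i ≤ b → x0 + (i : ZMod n) ∈ A := by
      intro i hi
      have := hb2 (b - i) (by omega)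
      have e1 : e - ((b - i : ℕ) : ZMod n) = x0 + (i : ZMod n) := by
        rw [Nat.cast_sub hi, hx0]; ring
      rwa [e1] at this
    have hPk := positions (c' := c') hpos m
    have hPl := positions (c' := c') hpos q
    set n' := H.index with hn'
    have hnn : n' * (fs H).card = n := fs_card H
    have hnpos : 0 < n := Nat.pos_of_ne_zero (NeZero.ne n)
    have hn'pos : 0 < n' := by
      rcases Nat.eq_zero_or_pos n' with h | h
      · rw [h] at hnn; omega
      · exact h
    have hn'H : ((n' : ℕ) : ZMod n) ∈ H := by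
      have h := H.nsmul_index_mem (1 : ZMod n)
      rw [nsmul_eq_mul, mul_one] at h
      exact h
    set Z := (m - q) * x0.val with hZ
    set y0 := Z % n' with hy0
    have hy0lt : y0 < n' := Nat.mod_lt _ hn'pos
    have hZd : n' * (Z / n') + y0 = Z := Nat.div_add_mod Z n'
    set t : ZMod n := ((Z / n' : ℕ) : ZMod n) * ((n' : ℕ) : ZMod n) with htdef
    have htH : t ∈ H := by
      have := H.nsmul_mem hn'H (Z / n')
      rwa [nsmul_eq_mul] at this
    have hKx : ((m : ZMod n) + 1) * x0 = ((q : ZMod n) + 1) * x0 + (y0 : ZMod n) + t := by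
      have h1 : ((Z : ℕ) : ZMod n) = ((m : ZMod n) - (q : ZMod n)) * x0 := by
        rw [hZ, Nat.cast_mul, Nat.cast_sub (by omega), ZMod.natCast_val, ZMod.cast_id]
      have h2 : ((Z : ℕ) : ZMod n) = t + (y0 : ZMod n) := by
        rw [← hZd, htdef]; push_cast; ring
      have h3 : ((m : ZMod n) - (q : ZMod n)) * x0 = t + (y0 : ZMod n) := by rw [← h1, h2]
      linear_combination h3
    have hperl := it_periodic (B := B) hper q
    have hbig : b + q * (b + c' + 1) < y0 := by
      by_contra hle
      have h1 := hPl y0 (by omega)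
      have h2 := mem_periodic hperl h1 htH
      rw [← hKx] at h2
      have h3 := hPk 0 (by omega)
      rw [Nat.cast_zero, add_zero] at h3
      exact Finset.disjoint_left.1 hd h3 h2
    have hbig2 : b + m * (b + c' + 1) < n' - y0 := by
      by_contra hle
      have h1 := hPk (n' - y0) (by omega)
      have h2 := hPl 0 (by omega)
      rw [Nat.cast_zero, add_zero] at h2
      have h3 := mem_periodic hperl h2 (H.add_mem htH hn'H)
      have e1 : ((m : ZMod n) + 1) * x0 + ((n' - y0 : ℕ) : ZMod n) =
          ((q : ZMod n) + 1) * x0 + (t + ((n' : ℕ) : ZMod n)) := by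
        rw [hKx, Nat.cast_sub (by omega)]
        ring
      rw [e1] at h1
      exact Finset.disjoint_left.1 hd h1 h3
    refine ⟨(fs H).card * y0, ?_, ?_, ?_⟩
    · have h1 : Nat.gcd n (m - q) ∣ (fs H).card * Z := by
        rw [hZ]
        exact Dvd.dvd.mul_left (Dvd.dvd.mul_right (Nat.gcd_dvd_right n (m - q)) _) _
      have h2 : (fs H).card * Z = n * (Z / n') + (fs H).card * y0 := by
        have h3 : n * (Z / n') = n' * (fs H).card * (Z / n') := by rw [hnn]
        rw [h3]
        conv_lhs => rw [← hZd]
        ring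
      rw [h2] at h1
      exact (Nat.dvd_add_right (Dvd.dvd.mul_right (Nat.gcd_dvd_left n (m - q)) _)).1 h1
    · rw [hb1]
      have h1 : (fs H).card * (b + q * (b + c' + 1) + 1) ≤ (fs H).card * y0 :=
        Nat.mul_le_mul_left _ hbig
      have h2 : (fs H).card * (b + q * (b + c' + 1) + 1) =
          (q + 1) * ((b + 1) * (fs H).card) + q * c' * (fs H).card := by ring
      have h5 : q * c' * 1 ≤ q * c' * (fs H).card := Nat.mul_le_mul_left _ hhpos
      rw [mul_one] at h5
      omega
    · rw [hb1]
      have h0 : b + m * (b + c' + 1) + 1 + y0 ≤ n' := by omega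
      have h1 : (fs H).card * (b + m * (b + c' + 1) + 1 + y0) ≤ (fs H).card * n' :=
        Nat.mul_le_mul_left _ h0
      have h2 : (fs H).card * (b + m * (b + c' + 1) + 1 + y0) =
          (m + 1) * ((b + 1) * (fs H).card) + m * c' * (fs H).card + (fs H).card * y0 := by ring
      have h3 : (fs H).card * n' = n := by rw [mul_comm]; exact hnn
      omega

end Pool.Agent.R364.Noisy
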